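import Mathlib
import Pool.Agent.Z894.CP.Stm4

/-! Project SP, part 7 (after `nfinal_holds` of helper555) -/

set_option autoImplicit false

open MvPolynomial

namespace Pool.Agent.Z894.SP

open Pool.Agent.TH922.KC Pool.Agent.Z894.CP Pool.Agent.Z894.ND

/-- **The final theorem.** -/
theorem sfinal_holds (h1 : SMain) (h2 : SComb) : SFinal := by
  intro n r hn0 d
  classical
  obtain ⟨bad1, hbad1, hmain1⟩ := main n r d
  obtain ⟨bad2, hbad2, hmain2⟩ := h1 n r hn0 d
  refine ⟨fun j => bad1 j * bad2 j, fun j => mul_ne_zero (hbad1 j) (hbad2 j), ?_⟩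
  intro f hf hfb I hI hIp hdim hfI Q hQ hdiv
  have hfb1 : ∀ j, MvPolynomial.eval (fun x => MvPolynomial.coeff x.2.1 (f x.1)) (bad1 j) ≠ 0 := by
    intro j h
    apply hfb j
    rw [map_mul, h, zero_mul]
  have hfb2 : ∀ j, MvPolynomial.eval (fun x => MvPolynomial.coeff x.2.1 (f x.1)) (bad2 j) ≠ 0 := by
    intro j h
    apply hfb j
    rw [map_mul, h, mul_zero]
  refine eventually_dvd Q hQ _ ?_
  intro p s hp hs hps
  have hpQ : p ∣ Q := (dvd_pow_self p hs).trans hps
  have hsv : s ≤ Q.factorization p := (hp.pow_dvd_iff_le_factorization hQ.ne').mp hps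
  have hdp := hdiv p hp hpQ
  by_cases hA : ∃ i, p ^ (n * (s + n)) ∣ d i
  · obtain ⟨i, hi⟩ := hA
    have hcard : 1 ≤ (Finset.univ.filter fun i => p ^ (n * (s + n)) ∣ d i).card :=
      Finset.card_pos.mpr ⟨i, Finset.mem_filter.mpr ⟨Finset.mem_univ _, hi⟩⟩
    have hj : n ≤ p ^ (n + 1) - 1 := by
      have e2 : n + 1 < 2 ^ (n + 1) := Nat.lt_two_pow_self
      have e3 : 2 ^ (n + 1) ≤ p ^ (n + 1) := Nat.pow_le_pow_left hp.two_le _
      omega
    obtain ⟨K, hK⟩ := hmain1 f hf hfb1 I hI hIp hdim hfI p (s + n) n hp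
      (hj.trans (Nat.le_mul_of_pos_left _ hcard))
    refine ⟨K, fun k hk => ?_⟩
    have e1 := hK k hk
    have e2 : ((p ^ (s + n) : ℕ) : ℤ) = ((p ^ n : ℕ) : ℤ) * ((p ^ s : ℕ) : ℤ) := by
      push_cast; ring
    rw [e2] at e1
    have e3 : ((p ^ n : ℕ) : ℤ) ≠ 0 := by exact_mod_cast (pow_pos hp.pos n).ne'
    exact (mul_dvd_mul_iff_left e3).mp e1
  · push Not at hA
    have hd0 : ∀ i, d i ≠ 0 := by
      intro i h
      exact hA i (by rw [h]; exact dvd_zero _)
    have hfac : ∀ S : Finset (Fin r), (∏ i ∈ S, d i).factorization p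
        = ∑ i ∈ S, (d i).factorization p := by
      intro S
      rw [Nat.factorization_prod (fun i _ => hd0 i), Finset.sum_apply']
    have e2 := (hp.pow_dvd_iff_le_factorization
        (Finset.prod_ne_zero_iff.mpr fun i _ => hd0 i)).mp hdp
    rw [hfac] at e2
    have hp2 := hp.two_le
    have hnM : n ≤ (n - 1) / (p - 1) + n := Nat.le_add_left _ _
    have hnp : n ≤ (n + (n - 1) / (p - 1) + 1 - n) * (p - 1) := by
      have e3 : n - 1 < ((n - 1) / (p - 1) + 1) * (p - 1) := by
        have e4 := Nat.lt_div_mul_add (a := n - 1) (b := p - 1) (by omega)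
        rw [add_mul, one_mul]
        exact e4
      have e5 : n + (n - 1) / (p - 1) + 1 - n = (n - 1) / (p - 1) + 1 := by omega
      rw [e5]
      omega
    have hn1 : (n + (n - 1) / (p - 1) = 1) → Nat.log p n = 0 := by
      intro h
      have : n = 1 := by omega
      rw [this]
      exact Nat.log_one_right p
    have hnk : n < p ^ (Nat.log p n + 1) := Nat.lt_pow_succ_log_self hp.one_lt n
    generalize hM : n + (n - 1) / (p - 1) = M at *
    generalize Nat.log p n = k0 at *
    obtain ⟨M', rfl⟩ : ∃ M', M = M' + 1 := ⟨M - 1, by omega⟩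
    have hk : k0 < s + k0 * M' := by
      rcases Nat.eq_zero_or_pos M' with h | h
      · have := hn1 (by omega)
        omega
      · have := Nat.le_mul_of_pos_right k0 h
        omega
    have htot : (M' + 1) * (s + k0 * M') + k0 * (M' + 1 - 1) ≤ ∑ i, (d i).factorization p := by
      refine le_trans ?_ e2
      have e3 : (M' + 1) ^ 2 - 1 = M' * M' + 2 * M' := by
        have : (M' + 1) ^ 2 = M' * M' + 2 * M' + 1 := by ring
        omega
      rw [e3, Nat.add_sub_cancel]
      have e4 : (M' + 1) * s ≤ (M' + 1) * Q.factorization p := Nat.mul_le_mul_left _ hsv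
      nlinarith
    obtain ⟨H, iF, iD, D, hD, hDk, hcard, hle⟩ :=
      h2 r (M' + 1) (s + k0 * M') k0 p (fun i => (d i).factorization p) hp (Nat.succ_pos _) hk htot
    obtain ⟨K, hK⟩ := hmain2 f hf hfb2 I hI hIp hdim hfI p (M' + 1) (s + k0 * M') k0 H D hp
      (by omega) (by omega) hnp hnk hD hDk (fun i hi =>
        ⟨Nat.pos_of_ne_zero (hd0 i), (hp.pow_dvd_iff_le_factorization (hd0 i)).mpr (hle i hi)⟩)
    refine ⟨K, fun k hk1 => ?_⟩
    refine dvd_trans ?_ (hK k hk1)
    have e5 : k0 * Fintype.card H ≤ k0 * M' := Nat.mul_le_mul_left _ (by omega)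
    exact_mod_cast pow_dvd_pow p (show s ≤ s + k0 * M' - k0 * Fintype.card H by omega)

end Pool.Agent.Z894.SP
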