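import Mathlib
import Pool.Agent.Z894.CP.Stm4
import Pool.Agent.Z894.MB.Fin
import Pool.Agent.Y547.ND.Norm
import Pool.Agent.Y3.SP.Hid
import Pool.Agent.Y974.SP.K2
import Pool.Agent.Y170.SP.Cmp
import Pool.Agent.Y378.SP.K1
import Pool.Agent.Y641.SP.Comb
import Pool.Agent.Z894.SP.Main
import Pool.Agent.Z894.SP.Final

set_option autoImplicit false

namespace Pool.Agent.Z894.SP

theorem final : SFinal :=
  sfinal_holds
    (smain_holds
      (Pool.Agent.Y378.SP.k1_holds
        (Pool.Agent.Y974.SP.k2_holds Pool.Agent.Y405.CP.alg_holds Pool.Agent.Z894.CP.kappa)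
        Pool.Agent.Y170.SP.cmp_holds
        Pool.Agent.Y3.SP.hid_holds)
      Pool.Agent.Y547.ND.norm_holds
      Pool.Agent.Y405.CP.alg_holds)
    Pool.Agent.Y641.SPC.comb_holds

end Pool.Agent.Z894.SP
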